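import Mathlib
import Pool.Agent.H31.Cat2

set_option autoImplicit false

namespace Pool.Agent.Results.MP_1fed52_co.Full

open Polynomial

/-- Major index of a finite sequence `w_1, …, w_m` (a list, `w_{i+1}` being entry `i`):
the sum of the positions `p` with `w_p > w_{p+1}`. -/
def maj (w : List ℕ) : ℕ :=
  ∑ i ∈ Finset.range (w.length - 1), if w.getD (i + 1) 0 < w.getD i 0 then i + 1 else 0

/-- For `x = (i-1)·2 + j` with `i ≥ 1`, `j ∈ {1,2}`: the index `i`. -/
def row (x : ℕ) : ℕ := (x - 1) / 2 + 1

/-- For `x = (i-1)·2 + j` with `i ≥ 1`, `j ∈ {1,2}`: the index `j`. -/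
def col (x : ℕ) : ℕ := (x - 1) % 2 + 1

/-- The order `x ⊴ y` of `NE_{s,2}`. -/
def Le (x y : ℕ) : Prop := row y ≤ row x ∧ col y ≤ col x

open Classical in
/-- `NE_{s,2}(123)`: permutations of `[2s]` in one-line notation that are linear extensions of
`NE_{s,2}` and avoid `123`. -/
noncomputable def NE123 (s : ℕ) : Finset (List ℕ) :=
  (List.range' 1 (2 * s)).permutations.toFinset.filter (fun π =>
    (∀ a b : Fin π.length, Le (π.get a) (π.get b) → a ≠ b → a < b) ∧
    ¬ ∃ a b c : Fin π.length, a < b ∧ b < c ∧ π.get a < π.get b ∧ π.get b < π.get c)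

/-- Catalan words of length `2n` in the letters `1 < 2`. -/
def CW (n : ℕ) : Finset (List ℕ) :=
  (List.replicate n 1 ++ List.replicate n 2).permutations.toFinset.filter
    (fun w => ∀ k ≤ w.length, (w.take k).count 2 ≤ (w.take k).count 1)

lemma NE_eq (s : ℕ) : NE123 s = Pool.Agent.H31.Cat.Q 0 s s s := by
  ext l
  rw [Pool.Agent.H31.Cat.memQ]
  simp only [NE123, Finset.mem_filter, List.mem_toFinset, List.mem_permutations]
  constructor
  · rintro ⟨h1, h2, _⟩
    have hm : ∀ x, x ∈ l ↔ Pool.Agent.H31.Cat.inQ 0 s s s x := fun x => by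
      rw [h1.mem_iff, List.mem_range'_1]; unfold Pool.Agent.H31.Cat.inQ; omega
    refine ⟨h1.nodup_iff.2 List.nodup_range', hm, ?_, le_rfl, by rw [h1.length_eq]; simp; omega⟩
    rw [List.pairwise_iff_get]
    intro i j hij hp
    have m1 := (hm _).1 (List.get_mem l i)
    have m2 := (hm _).1 (List.get_mem l j)
    refine absurd (h2 j i ?_ hij.ne') (not_lt.2 hij.le)
    unfold Pool.Agent.H31.Cat.pr at hp
    unfold Pool.Agent.H31.Cat.inQ at m1 m2
    unfold Le row col
    omega
  · rintro ⟨h1, h2, h3, _⟩
    have hn := List.pairwise_iff_get.1 h1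
    rw [List.pairwise_iff_get] at h3
    refine ⟨(List.perm_ext_iff_of_nodup h1 List.nodup_range').2 (fun x => ?_),
      fun a b hp hab => ?_, ?_⟩
    · rw [h2, List.mem_range'_1]; unfold Pool.Agent.H31.Cat.inQ; omega
    · rcases lt_or_gt_of_ne hab with h | h
      · exact h
      · exfalso
        have m1 := (h2 _).1 (List.get_mem l a)
        have m2 := (h2 _).1 (List.get_mem l b)
        have k1 := h3 b a h
        have k2 := hn b a h
        unfold Pool.Agent.H31.Cat.pr at k1
        unfold Pool.Agent.H31.Cat.inQ at m1 m2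
        unfold Le row col at hp
        omega
    · rintro ⟨a, b, c, hab, hbc, h4, h5⟩
      have k1 := h3 a b hab
      have k2 := h3 b c hbc
      have k3 := h3 a c (hab.trans hbc)
      unfold Pool.Agent.H31.Cat.pr at k1 k2 k3
      omega

lemma count_succ (l : List ℕ) (x : ℕ) : (l.map (· + 1)).count (x + 1) = l.count x :=
  List.count_map_of_injective l (· + 1) (add_left_injective 1) x

lemma CW_eq (n : ℕ) : CW n = (Pool.Agent.H31.Cat.W n n).image (List.map (· + 1)) := by
  have hr : List.replicate n 1 ++ List.replicate n 2 =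
      (List.replicate n 0 ++ List.replicate n 1).map (· + 1) := by simp
  ext l
  simp only [CW, Pool.Agent.H31.Cat.W, Finset.mem_image, Finset.mem_filter, List.mem_toFinset,
    List.mem_permutations]
  constructor
  · rintro ⟨h1, h2⟩
    have e : (l.map (· - 1)).map (· + 1) = l := by
      rw [List.map_map]
      conv_rhs => rw [← List.map_id l]
      refine List.map_congr_left (fun x hx => ?_)
      rw [h1.mem_iff, List.mem_append, List.mem_replicate, List.mem_replicate] at hx
      simp only [Function.comp, id]; omega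
    refine ⟨l.map (· - 1), ⟨by simpa using h1.map (· - 1), fun k hk => ?_⟩, e⟩
    have := h2 k (by simpa using hk)
    rw [← e, ← List.map_take] at this
    rwa [show 2 = 1 + 1 from rfl, count_succ, show 1 = 0 + 1 from rfl, count_succ] at this
  · rintro ⟨w, ⟨h1, h2⟩, rfl⟩
    refine ⟨hr ▸ h1.map _, fun k hk => ?_⟩
    have := h2 k (by simpa using hk)
    rw [← List.map_take]
    exact (count_succ _ 1).trans_le (this.trans_eq (count_succ _ 0).symm)

lemma maj_succ (w : List ℕ) : maj (w.map (· + 1)) = Pool.Agent.H31.Cat.maj w := by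
  unfold maj Pool.Agent.H31.Cat.maj
  rw [List.length_map]
  refine Finset.sum_congr rfl (fun i hi => ?_)
  rw [Finset.mem_range] at hi
  have i1 : i < w.length := by omega
  have i2 : i + 1 < w.length := by omega
  rw [List.getD_eq_getElem _ _ (by simpa using i2), List.getD_eq_getElem _ _ (by simpa using i1),
    List.getD_eq_getElem _ _ i2, List.getD_eq_getElem _ _ i1]
  simp

theorem result (s : ℕ) (_hs : 1 ≤ s) :
    (∑ π ∈ NE123 s, (X : ℤ[X]) ^ maj π) = X ^ (s ^ 2) * ∑ w ∈ CW s, (X : ℤ[X]) ^ maj w := by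
  rw [CW_eq, Finset.sum_image (fun a _ b _ h => List.map_injective_iff.2 (add_left_injective 1) h)]
  simp only [maj_succ]
  apply Polynomial.map_injective (Int.castRingHom ℝ) Int.cast_injective
  apply Polynomial.eq_of_infinite_eval_eq
  refine (Set.Ioi_infinite (1 : ℝ)).mono (fun q hq => ?_)
  simp only [Set.mem_setOf_eq, Polynomial.map_mul, Polynomial.map_sum, Polynomial.map_pow,
    Polynomial.map_X, eval_mul, eval_pow, eval_X, eval_finset_sum, NE_eq]
  exact Pool.Agent.H31.Cat.main0 q hq s

end Pool.Agent.Results.MP_1fed52_co.Full
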